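import Mathlib

/-!
# The Pfaffian identity for odd-order off-diagonally symmetric alternating sign matrices

The power series `(y - x) / ((1 - x y) (1 - x - y))` changes sign (up to the factor `(1 - x) (1 - y)`) under
`x ↦ - x / (1 - x)`, `y ↦ - y / (1 - y)`. In terms of the bilinear form `⟨z ^ a, z ^ b⟩ = c a b` on
polynomials this says `⟨f (1 - z), g (1 - z)⟩ = - ⟨f, g⟩`. Hence the Pfaffian bordered by the vector `u` is
equal to the one bordered by the binomial transform of `u`, and the binomial transform of `(-1) ^ a`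
is `2 ^ a`.
-/

set_option autoImplicit false

namespace Pool.Agent.Results.MP_d12cfa_co.PfaffianIdentity

open Finset Matrix Equiv

/-! ### Pfaffians -/

/-- The index `2 i + b` for `b = 0, 1`. -/
def ix {m : ℕ} (i : Fin m) (b : Fin 2) : Fin (m * 2) := finProdFinEquiv (i, b)

/-- The Pfaffian of a skew-symmetric matrix of order `2 m` (rows and columns `0, …, 2 m - 1`):
`1 / (2 ^ m m!)` times the sum over all permutations `σ` of
`sign σ * ∏ i, A (σ (2 i)) (σ (2 i + 1))`. -/
noncomputable def pf {m : ℕ} (A : Matrix (Fin (m * 2)) (Fin (m * 2)) ℚ) : ℚ :=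
  (∑ σ : Perm (Fin (m * 2)), ((Perm.sign σ : ℤ) : ℚ) *
    ∏ i : Fin m, A (σ (ix i 0)) (σ (ix i 1))) / (2 ^ m * m.factorial)

theorem prod_ix {m : ℕ} (g : Fin (m * 2) → ℚ) :
    ∏ j, g j = ∏ i : Fin m, (g (ix i 0) * g (ix i 1)) := by
  rw [← Equiv.prod_comp finProdFinEquiv g, Fintype.prod_prod_type]
  apply Finset.prod_congr rfl
  intro i _
  rw [Fin.prod_univ_two]
  rfl

/-- Functions on pairs. -/
def pairEquiv (m N : ℕ) : (Fin (m * 2) → Fin N) ≃ (Fin m → Fin N × Fin N) where
  toFun p i := (p (ix i 0), p (ix i 1))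
  invFun P j := if (finProdFinEquiv.symm j).2 = 0 then (P (finProdFinEquiv.symm j).1).1
    else (P (finProdFinEquiv.symm j).1).2
  left_inv p := by
    funext j
    obtain ⟨⟨i, b⟩, rfl⟩ := finProdFinEquiv.surjective j
    simp only [Equiv.symm_apply_apply]
    fin_cases b
    · rfl
    · rfl
  right_inv P := by
    funext i
    simp [ix]

theorem pf_congr {m : ℕ} (A S : Matrix (Fin (m * 2)) (Fin (m * 2)) ℚ) :
    pf (Sᵀ * A * S) = S.det * pf A := by
  unfold pf
  rw [mul_div_assoc']
  congr 1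
  have h1 : ∀ σ : Perm (Fin (m * 2)), ∏ i : Fin m, (Sᵀ * A * S) (σ (ix i 0)) (σ (ix i 1))
      = ∑ p : Fin (m * 2) → Fin (m * 2), (∏ i : Fin m, A (p (ix i 0)) (p (ix i 1))) *
          ∏ j, S (p j) (σ j) := by
    intro σ
    have h2 : ∀ a b, (Sᵀ * A * S) a b = ∑ kl : Fin (m * 2) × Fin (m * 2),
        A kl.1 kl.2 * (S kl.1 a * S kl.2 b) := by
      intro a b
      rw [Matrix.mul_apply, Fintype.sum_prod_type, Finset.sum_comm]
      apply Finset.sum_congr rfl
      intro l _
      rw [Matrix.mul_apply, Finset.sum_mul]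
      apply Finset.sum_congr rfl
      intro k _
      rw [Matrix.transpose_apply]
      ring
    simp only [h2]
    rw [Finset.prod_univ_sum, Fintype.piFinset_univ,
      ← Equiv.sum_comp (pairEquiv m (m * 2))]
    apply Finset.sum_congr rfl
    intro p _
    rw [prod_ix, ← Finset.prod_mul_distrib]
    rfl
  have h3 : ∀ p : Fin (m * 2) → Fin (m * 2),
      ∑ σ : Perm (Fin (m * 2)), ((Perm.sign σ : ℤ) : ℚ) * ∏ j, S (p j) (σ j)
        = (S.submatrix p id).det := by
    intro p
    rw [← Matrix.det_transpose, Matrix.det_apply']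
    rfl
  calc ∑ σ : Perm (Fin (m * 2)), ((Perm.sign σ : ℤ) : ℚ) *
        ∏ i : Fin m, (Sᵀ * A * S) (σ (ix i 0)) (σ (ix i 1))
      = ∑ p : Fin (m * 2) → Fin (m * 2), (∏ i : Fin m, A (p (ix i 0)) (p (ix i 1))) *
          (S.submatrix p id).det := by
        simp only [h1, Finset.mul_sum]
        rw [Finset.sum_comm]
        apply Finset.sum_congr rfl
        intro p _
        rw [← h3, Finset.mul_sum]
        apply Finset.sum_congr rfl
        intro σ _
        ring
    _ = ∑ p : Fin (m * 2) → Fin (m * 2) with Function.Bijective p,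
          (∏ i : Fin m, A (p (ix i 0)) (p (ix i 1))) * (S.submatrix p id).det := by
        symm
        apply Finset.sum_subset (Finset.filter_subset _ _)
        intro p _ hp
        have hnb : ¬ Function.Bijective p := by
          intro h; exact hp (Finset.mem_filter.2 ⟨Finset.mem_univ _, h⟩)
        rw [← Finite.injective_iff_bijective] at hnb
        unfold Function.Injective at hnb
        push Not at hnb
        obtain ⟨a, b, hab, hne⟩ := hnb
        rw [Matrix.det_zero_of_row_eq hne, mul_zero]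
        funext j
        simp [hab]
    _ = ∑ τ : Perm (Fin (m * 2)), (∏ i : Fin m, A (τ (ix i 0)) (τ (ix i 1))) *
          (S.submatrix τ id).det := by
        exact Finset.sum_bij (fun p h ↦ Equiv.ofBijective p (Finset.mem_filter.1 h).2)
          (fun _ _ ↦ Finset.mem_univ _) (fun _ _ _ _ h ↦ by injection h)
          (fun b _ ↦ ⟨b, Finset.mem_filter.2 ⟨Finset.mem_univ _, b.bijective⟩,
            Equiv.coe_fn_injective rfl⟩) fun _ _ ↦ rfl
    _ = S.det * ∑ σ : Perm (Fin (m * 2)), ((Perm.sign σ : ℤ) : ℚ) *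
          ∏ i : Fin m, A (σ (ix i 0)) (σ (ix i 1)) := by
        rw [Finset.mul_sum]
        apply Finset.sum_congr rfl
        intro τ _
        rw [Matrix.det_permute]
        ring

theorem pf_neg {m : ℕ} (A : Matrix (Fin (m * 2)) (Fin (m * 2)) ℚ) :
    pf (-A) = (-1) ^ m * pf A := by
  unfold pf
  rw [mul_div_assoc', Finset.mul_sum]
  congr 1
  apply Finset.sum_congr rfl
  intro σ _
  have : ∏ i : Fin m, (-A) (σ (ix i 0)) (σ (ix i 1))
      = (-1) ^ m * ∏ i : Fin m, A (σ (ix i 0)) (σ (ix i 1)) := by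
    simp only [Matrix.neg_apply]
    rw [Finset.prod_neg, Finset.card_univ, Fintype.card_fin]
  rw [this]
  ring

/-- The skew-symmetric matrix of order `2 n + 2` with entries `c a b` for `a, b ≤ 2 n` and last column
`u 0, …, u (2 n)`. -/
def border (n : ℕ) (c : ℕ → ℕ → ℚ) (u : ℕ → ℚ) :
    Matrix (Fin ((n + 1) * 2)) (Fin ((n + 1) * 2)) ℚ := fun a b =>
  if (a : ℕ) ≤ 2 * n then (if (b : ℕ) ≤ 2 * n then c a b else u a)
  else (if (b : ℕ) ≤ 2 * n then - u b else 0)

/-- Every product in the Pfaffian is additive in the last column. -/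
theorem prod_border (n : ℕ) (c : ℕ → ℕ → ℚ) (σ : Perm (Fin ((n + 1) * 2))) :
    ∃ K : ℚ, ∃ L : (ℕ → ℚ) →ₗ[ℚ] ℚ, ∀ u : ℕ → ℚ,
      ∏ i : Fin (n + 1), border n c u (σ (ix i 0)) (σ (ix i 1)) = K * L u := by
  have hlt : 2 * n + 1 < (n + 1) * 2 := by omega
  set last : Fin ((n + 1) * 2) := ⟨2 * n + 1, hlt⟩ with hlast
  have hle : ∀ x : Fin ((n + 1) * 2), x ≠ last → (x : ℕ) ≤ 2 * n := by
    intro x hx
    have h1 := x.isLt
    have h2 : (x : ℕ) ≠ 2 * n + 1 := fun h => hx (Fin.ext h)
    omega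
  have hnle : ¬ ((last : Fin ((n + 1) * 2)) : ℕ) ≤ 2 * n := by rw [hlast]; simp
  obtain ⟨⟨i0, b0⟩, hj⟩ := finProdFinEquiv.surjective (σ.symm last)
  have hi0 : σ (ix i0 b0) = last := by
    unfold ix; rw [hj]; simp
  have hne : ∀ (i : Fin (n + 1)) (b : Fin 2), (i, b) ≠ (i0, b0) → (σ (ix i b) : ℕ) ≤ 2 * n := by
    intro i b hib
    apply hle
    intro h
    have h1 : σ (ix i b) = σ (ix i0 b0) := by rw [h, hi0]
    exact hib (finProdFinEquiv.injective (σ.injective h1))
  refine ⟨∏ i ∈ univ.erase i0, c (σ (ix i 0)) (σ (ix i 1)),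
    if b0 = 0 then - LinearMap.proj (σ (ix i0 1) : ℕ) else LinearMap.proj (σ (ix i0 0) : ℕ), ?_⟩
  intro u
  rw [← Finset.mul_prod_erase univ _ (Finset.mem_univ i0), mul_comm]
  congr 1
  · apply Finset.prod_congr rfl
    intro i hi
    have hii : i ≠ i0 := Finset.ne_of_mem_erase hi
    have h0 := hne i 0 (fun h => hii (congrArg Prod.fst h))
    have h1 := hne i 1 (fun h => hii (congrArg Prod.fst h))
    unfold border
    rw [if_pos h0, if_pos h1]
  · by_cases hb : b0 = 0
    · subst hb
      have h1 := hne i0 1 (fun h => by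
        have := congrArg Prod.snd h
        simp at this)
      unfold border
      rw [hi0, if_neg hnle, if_pos h1, if_pos rfl]
      simp
    · have hb1 : b0 = 1 := by omega
      subst hb1
      have h1 := hne i0 0 (fun h => by
        have := congrArg Prod.snd h
        simp at this)
      unfold border
      rw [hi0, if_pos h1, if_neg hnle, if_neg hb]
      simp

/-- The Pfaffian is linear in the last column. -/
theorem pf_border_linear (n : ℕ) (c : ℕ → ℕ → ℚ) :
    ∃ L : (ℕ → ℚ) →ₗ[ℚ] ℚ, ∀ u : ℕ → ℚ, pf (border n c u) = L u := by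
  choose K L hKL using prod_border n c
  refine ⟨(1 / (2 ^ (n + 1) * (n + 1).factorial : ℚ)) •
    ∑ σ : Perm (Fin ((n + 1) * 2)), (((Perm.sign σ : ℤ) : ℚ) * K σ) • L σ, ?_⟩
  intro u
  unfold pf
  simp only [hKL]
  simp only [LinearMap.smul_apply, LinearMap.sum_apply, smul_eq_mul]
  rw [one_div, div_eq_inv_mul]
  congr 1
  apply Finset.sum_congr rfl
  intro σ _
  ring

/-! ### The transformation -/

/-- The matrix of `z ↦ 1 - z` on polynomials of degree at most `2 n`, with a last diagonal entry `-1`. -/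
def sub (n : ℕ) : Matrix (Fin ((n + 1) * 2)) (Fin ((n + 1) * 2)) ℚ := fun k a =>
  if (a : ℕ) ≤ 2 * n then (-1) ^ (k : ℕ) * ((a : ℕ).choose k : ℚ)
  else (if (k : ℕ) ≤ 2 * n then 0 else -1)

theorem prod_neg_one (n : ℕ) : ∏ k ∈ range ((n + 1) * 2), (-1 : ℚ) ^ k = (-1) ^ (n + 1) := by
  induction n with
  | zero => simp [Finset.prod_range_succ]
  | succ n ih =>
    have : (n + 1 + 1) * 2 = (n + 1) * 2 + 1 + 1 := by ring
    rw [this, Finset.prod_range_succ, Finset.prod_range_succ, ih]
    have h1 : (-1 : ℚ) ^ ((n + 1) * 2) = 1 := by rw [mul_comm, pow_mul]; simp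
    rw [pow_succ (-1 : ℚ) ((n + 1) * 2), h1, pow_succ (-1 : ℚ) (n + 1)]
    ring

theorem det_sub (n : ℕ) : (sub n).det = (-1) ^ (n + 1) := by
  rw [Matrix.det_of_isUpperTriangular]
  · rw [← prod_neg_one n, Finset.prod_range]
    apply Finset.prod_congr rfl
    intro k _
    unfold sub
    by_cases h : (k : ℕ) ≤ 2 * n
    · rw [if_pos h]; simp
    · rw [if_neg h, if_neg h]
      have := k.isLt
      have hk : (k : ℕ) = 2 * n + 1 := by omega
      rw [hk, pow_succ, pow_mul]; simp
  · intro k a hka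
    have hka' : (a : ℕ) < k := hka
    unfold sub
    by_cases h : (a : ℕ) ≤ 2 * n
    · rw [if_pos h, Nat.choose_eq_zero_of_lt hka']; simp
    · exfalso
      have := k.isLt
      omega

/-- The binomial transform. -/
def bt (u : ℕ → ℚ) (a : ℕ) : ℚ := ∑ k ∈ range (a + 1), (-1) ^ k * (a.choose k : ℚ) * u k

theorem sum_bt (n a : ℕ) (ha : a ≤ 2 * n) (u : ℕ → ℚ) :
    ∑ k : Fin ((n + 1) * 2), (-1) ^ (k : ℕ) * (a.choose k : ℚ) * u k = bt u a := by
  rw [← Finset.sum_range (fun k => (-1) ^ k * (a.choose k : ℚ) * u k)]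
  unfold bt
  symm
  apply Finset.sum_subset
  · intro k hk
    rw [Finset.mem_range] at hk ⊢
    omega
  · intro k _ hk
    rw [Finset.mem_range, not_lt] at hk
    rw [Nat.choose_eq_zero_of_lt (by omega)]; simp

/-- The array `c` changes sign under the double binomial transform. -/
def AntiInv (c : ℕ → ℕ → ℚ) : Prop :=
  ∀ a b, bt (fun k => bt (fun l => c k l) b) a = - c a b

theorem sub_congr (n : ℕ) (c : ℕ → ℕ → ℚ) (hc : AntiInv c) (u : ℕ → ℚ) :
    (sub n)ᵀ * border n c u * sub n = - border n c (bt u) := by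
  ext a b
  rw [Matrix.mul_apply, Matrix.neg_apply]
  by_cases ha : (a : ℕ) ≤ 2 * n
  · by_cases hb : (b : ℕ) ≤ 2 * n
    · -- the block
      have h1 : ∀ l : Fin ((n + 1) * 2), ((sub n)ᵀ * border n c u) a l * sub n l b
          = (-1) ^ (l : ℕ) * ((b : ℕ).choose l : ℚ) *
            (∑ k : Fin ((n + 1) * 2), (-1) ^ (k : ℕ) * ((a : ℕ).choose k : ℚ) * c k l) := by
        intro l
        have e1 : sub n l b = (-1) ^ (l : ℕ) * ((b : ℕ).choose l : ℚ) := by
          unfold sub; rw [if_pos hb]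
        rw [e1, mul_comm]
        by_cases hl : (l : ℕ) ≤ 2 * n
        · congr 1
          rw [Matrix.mul_apply]
          apply Finset.sum_congr rfl
          intro k _
          rw [Matrix.transpose_apply]
          have e2 : sub n k a = (-1) ^ (k : ℕ) * ((a : ℕ).choose k : ℚ) := by
            unfold sub; rw [if_pos ha]
          rw [e2]
          by_cases hk : (k : ℕ) ≤ 2 * n
          · unfold border; rw [if_pos hk, if_pos hl]
          · rw [Nat.choose_eq_zero_of_lt (by omega : (a : ℕ) < k)]; simp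
        · rw [Nat.choose_eq_zero_of_lt (by omega : (b : ℕ) < l)]; simp
      rw [Finset.sum_congr rfl fun l _ => h1 l]
      have h2 : ∀ l : Fin ((n + 1) * 2),
          ∑ k : Fin ((n + 1) * 2), (-1) ^ (k : ℕ) * ((a : ℕ).choose k : ℚ) * c k l
            = bt (fun k => c k l) a := fun l => sum_bt n a ha (fun k => c k l)
      simp only [h2]
      rw [sum_bt n b hb (fun l => bt (fun k => c k l) a)]
      have h3 : bt (fun l => bt (fun k => c k l) a) b = bt (fun k => bt (fun l => c k l) b) a := by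
        unfold bt
        simp only [Finset.mul_sum]
        rw [Finset.sum_comm]
        apply Finset.sum_congr rfl
        intro k _
        apply Finset.sum_congr rfl
        intro l _
        ring
      rw [h3, hc a b]
      unfold border
      rw [if_pos ha, if_pos hb]
    · -- the last column
      have hbl : ∀ l : Fin ((n + 1) * 2), ((sub n)ᵀ * border n c u) a l * sub n l b
          = if l = b then - ((sub n)ᵀ * border n c u) a b else 0 := by
        intro l
        unfold sub
        rw [if_neg hb]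
        by_cases hl : (l : ℕ) ≤ 2 * n
        · rw [if_pos hl, if_neg (fun h => hb (by rw [← h]; exact hl)), mul_zero]
        · have : l = b := by
            apply Fin.ext
            have := l.isLt; have := b.isLt; omega
          subst this
          rw [if_neg hl, if_pos rfl]; ring
      rw [Finset.sum_congr rfl fun l _ => hbl l, Finset.sum_ite_eq' univ b, if_pos (Finset.mem_univ _),
        neg_inj, Matrix.mul_apply]
      have h1 : ∀ k : Fin ((n + 1) * 2), (sub n)ᵀ a k * border n c u k b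
          = (-1) ^ (k : ℕ) * ((a : ℕ).choose k : ℚ) * u k := by
        intro k
        rw [Matrix.transpose_apply]
        have e2 : sub n k a = (-1) ^ (k : ℕ) * ((a : ℕ).choose k : ℚ) := by
          unfold sub; rw [if_pos ha]
        rw [e2]
        by_cases hk : (k : ℕ) ≤ 2 * n
        · unfold border; rw [if_pos hk, if_neg hb]
        · rw [Nat.choose_eq_zero_of_lt (by omega : (a : ℕ) < k)]; simp
      rw [Finset.sum_congr rfl fun k _ => h1 k, sum_bt n a ha u]
      unfold border
      rw [if_pos ha, if_neg hb]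
  · -- the last row
    have hrow : ∀ l : Fin ((n + 1) * 2), ((sub n)ᵀ * border n c u) a l = - border n c u a l := by
      intro l
      rw [Matrix.mul_apply]
      have h1 : ∀ k : Fin ((n + 1) * 2), (sub n)ᵀ a k * border n c u k l
          = if k = a then - border n c u a l else 0 := by
        intro k
        rw [Matrix.transpose_apply]
        unfold sub
        rw [if_neg ha]
        by_cases hk : (k : ℕ) ≤ 2 * n
        · rw [if_pos hk, if_neg (fun h => ha (by rw [← h]; exact hk)), zero_mul]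
        · have : k = a := by
            apply Fin.ext
            have := k.isLt; have := a.isLt; omega
          subst this
          rw [if_neg hk, if_pos rfl]; ring
      rw [Finset.sum_congr rfl fun k _ => h1 k, Finset.sum_ite_eq' univ a,
        if_pos (Finset.mem_univ _)]
    have h2 : ∀ l : Fin ((n + 1) * 2), ((sub n)ᵀ * border n c u) a l * sub n l b
        = - (border n c u a l * sub n l b) := by
      intro l; rw [hrow]; ring
    rw [Finset.sum_congr rfl fun l _ => h2 l, Finset.sum_neg_distrib, neg_inj]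
    by_cases hb : (b : ℕ) ≤ 2 * n
    · have h3 : ∀ l : Fin ((n + 1) * 2), border n c u a l * sub n l b
          = - ((-1) ^ (l : ℕ) * ((b : ℕ).choose l : ℚ) * u l) := by
        intro l
        have e2 : sub n l b = (-1) ^ (l : ℕ) * ((b : ℕ).choose l : ℚ) := by
          unfold sub; rw [if_pos hb]
        rw [e2]
        by_cases hl : (l : ℕ) ≤ 2 * n
        · unfold border; rw [if_neg ha, if_pos hl]; ring
        · rw [Nat.choose_eq_zero_of_lt (by omega : (b : ℕ) < l)]; simp
      rw [Finset.sum_congr rfl fun l _ => h3 l, Finset.sum_neg_distrib, sum_bt n b hb u]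
      unfold border
      rw [if_neg ha, if_pos hb]
    · have h3 : ∀ l : Fin ((n + 1) * 2), border n c u a l * sub n l b = 0 := by
        intro l
        unfold border sub
        rw [if_neg ha, if_neg hb]
        by_cases hl : (l : ℕ) ≤ 2 * n
        · rw [if_pos hl, if_pos hl, mul_zero]
        · rw [if_neg hl, zero_mul]
      rw [Finset.sum_congr rfl fun l _ => h3 l]
      unfold border
      rw [if_neg ha, if_neg hb]; simp

/-- The Pfaffian bordered by `u` is the one bordered by the binomial transform of `u`. -/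
theorem pf_bt (n : ℕ) (c : ℕ → ℕ → ℚ) (hc : AntiInv c) (u : ℕ → ℚ) :
    pf (border n c (bt u)) = pf (border n c u) := by
  have h1 := pf_congr (border n c u) (sub n)
  rw [sub_congr n c hc u, pf_neg, det_sub] at h1
  have h2 : ((-1 : ℚ)) ^ (n + 1) ≠ 0 := pow_ne_zero _ (by norm_num)
  exact mul_left_cancel₀ h2 h1

/-! ### The generating function -/

section Series

open MvPowerSeries

/-- The power series `(y - x) / ((1 - x y) (1 - x - y))` with `x = X 0`, `y = X 1`. -/
noncomputable def G : MvPowerSeries (Fin 2) ℚ :=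
  (X 1 - X 0) * ((1 - X 0 * X 1) * (1 - X 0 - X 1))⁻¹

/-- The exponent of `x ^ a y ^ b`. -/
noncomputable def ex (a b : ℕ) : Fin 2 →₀ ℕ := Finsupp.single 0 a + Finsupp.single 1 b

/-- The coefficient of `x ^ a y ^ b`. -/
noncomputable def cc (a b : ℕ) : ℚ := coeff (ex a b) G

theorem ex_zero (a b : ℕ) : ex a b 0 = a := by simp [ex]
theorem ex_one (a b : ℕ) : ex a b 1 = b := by simp [ex]

theorem ex_le (a b i j : ℕ) : ex i j ≤ ex a b ↔ i ≤ a ∧ j ≤ b := by
  rw [Finsupp.le_def]
  constructor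
  · intro h
    have h0 := h 0; have h1 := h 1
    rw [ex_zero, ex_zero] at h0; rw [ex_one, ex_one] at h1
    exact ⟨h0, h1⟩
  · rintro ⟨h0, h1⟩ k
    fin_cases k
    · change ex i j 0 ≤ ex a b 0
      rw [ex_zero, ex_zero]; exact h0
    · change ex i j 1 ≤ ex a b 1
      rw [ex_one, ex_one]; exact h1

theorem ex_sub (a b i j : ℕ) : ex a b - ex i j = ex (a - i) (b - j) := by
  ext k
  fin_cases k
  · change ex a b 0 - ex i j 0 = ex (a - i) (b - j) 0
    rw [ex_zero, ex_zero, ex_zero]
  · change ex a b 1 - ex i j 1 = ex (a - i) (b - j) 1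
    rw [ex_one, ex_one, ex_one]

theorem ex_inj (a b i j : ℕ) : ex a b = ex i j ↔ a = i ∧ b = j := by
  constructor
  · intro h
    have h0 := DFunLike.congr_fun h 0
    have h1 := DFunLike.congr_fun h 1
    rw [ex_zero, ex_zero] at h0; rw [ex_one, ex_one] at h1
    exact ⟨h0, h1⟩
  · rintro ⟨rfl, rfl⟩; rfl

theorem X_mono (i j : ℕ) : (X 0 : MvPowerSeries (Fin 2) ℚ) ^ i * X 1 ^ j = monomial (ex i j) 1 := by
  rw [X_pow_eq, X_pow_eq, monomial_mul_monomial, one_mul]; rfl

theorem coeff_mono_mul (i j a b : ℕ) (φ : MvPowerSeries (Fin 2) ℚ) :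
    coeff (ex a b) (X 0 ^ i * X 1 ^ j * φ) = if i ≤ a ∧ j ≤ b then coeff (ex (a - i) (b - j)) φ else 0 := by
  rw [X_mono, coeff_monomial_mul]
  simp only [ex_le, ex_sub, one_mul]

theorem G_eq : ((1 - X 0 * X 1) * (1 - X 0 - X 1)) * G = X 1 - X 0 := by
  unfold G
  rw [mul_left_comm, MvPowerSeries.mul_inv_cancel, mul_one]
  simp

theorem cc_rec (a b : ℕ) :
    cc a b - (if 1 ≤ a then cc (a - 1) b else 0) - (if 1 ≤ b then cc a (b - 1) else 0)
      - (if 1 ≤ a ∧ 1 ≤ b then cc (a - 1) (b - 1) else 0)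
      + (if 2 ≤ a ∧ 1 ≤ b then cc (a - 2) (b - 1) else 0)
      + (if 1 ≤ a ∧ 2 ≤ b then cc (a - 1) (b - 2) else 0)
      = (if a = 0 ∧ b = 1 then 1 else 0) - (if a = 1 ∧ b = 0 then 1 else 0) := by
  have h := congrArg (coeff (ex a b)) G_eq
  have e : ((1 - X 0 * X 1) * (1 - X 0 - X 1)) * G = X 0 ^ 0 * X 1 ^ 0 * G - X 0 ^ 1 * X 1 ^ 0 * G
      - X 0 ^ 0 * X 1 ^ 1 * G - X 0 ^ 1 * X 1 ^ 1 * G + X 0 ^ 2 * X 1 ^ 1 * G
      + X 0 ^ 1 * X 1 ^ 2 * G := by ring
  have e2 : (X 1 - X 0 : MvPowerSeries (Fin 2) ℚ) = X 0 ^ 0 * X 1 ^ 1 - X 0 ^ 1 * X 1 ^ 0 := by ring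
  rw [e, e2] at h
  simp only [map_add, map_sub, coeff_mono_mul] at h
  rw [X_mono, X_mono, coeff_monomial, coeff_monomial] at h
  simp only [ex_inj] at h
  simpa [cc] using h

end Series

section Form

open Polynomial

theorem cc_row0 (b : ℕ) : cc 0 (b + 1) = 1 := by
  induction b with
  | zero => have := cc_rec 0 1; have h0 := cc_rec 0 0; norm_num at this h0; rw [h0] at this; linarith
  | succ b ih =>
    have := cc_rec 0 (b + 1 + 1)
    norm_num at this
    rw [ih] at this
    linarith

theorem cc_00 : cc 0 0 = 0 := by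
  have h0 := cc_rec 0 0; norm_num at h0; exact h0

theorem cc_10 : cc 1 0 = -1 := by
  have := cc_rec 1 0; norm_num at this; rw [cc_00] at this; linarith

theorem cc_11 : cc 1 1 = 0 := by
  have := cc_rec 1 1; norm_num at this
  have h1 := cc_row0 0
  norm_num at h1
  rw [cc_00, cc_10, h1] at this; linarith

theorem cc_row1 (b : ℕ) : cc 1 (b + 2) = b + 2 := by
  induction b with
  | zero =>
    have := cc_rec 1 2; norm_num at this
    have h1 := cc_row0 0
    have h2 := cc_row0 1
    norm_num at h1 h2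
    rw [cc_00, cc_11, h1, h2] at this
    norm_num
    linarith
  | succ b ih =>
    have := cc_rec 1 (b + 1 + 2)
    norm_num at this
    have h1 := cc_row0 (b + 2)
    have h2 := cc_row0 (b + 1)
    have h3 := cc_row0 b
    have e1 : b + 1 + 2 = b + 2 + 1 := by ring
    have e2 : b + 1 + 2 - 1 = b + 2 := by omega
    rw [e1, h1, h3] at this
    rw [show b + 2 = b + 1 + 1 by ring, h2, show b + 1 + 1 = b + 2 by ring, ih] at this
    rw [e1]
    push_cast
    linarith

theorem cc_22 (a b : ℕ) : cc (a + 2) (b + 2) = cc (a + 1) (b + 2) + cc (a + 2) (b + 1)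
    + cc (a + 1) (b + 1) - cc a (b + 1) - cc (a + 1) b := by
  have := cc_rec (a + 2) (b + 2)
  norm_num at this
  linarith

theorem cc_skew (a b : ℕ) : cc a b = - cc b a := by
  induction h : a + b using Nat.strong_induction_on generalizing a b with
  | _ s ih =>
    have h1 := cc_rec a b
    have h2 := cc_rec b a
    have i1 : (if 1 ≤ a then cc (a - 1) b else 0) = - (if 1 ≤ a then cc b (a - 1) else 0) := by
      split_ifs with hh
      · exact ih (a - 1 + b) (by omega) (a - 1) b rfl
      · simp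
    have i2 : (if 1 ≤ b then cc a (b - 1) else 0) = - (if 1 ≤ b then cc (b - 1) a else 0) := by
      split_ifs with hh
      · exact ih (a + (b - 1)) (by omega) a (b - 1) rfl
      · simp
    have i3 : (if 1 ≤ a ∧ 1 ≤ b then cc (a - 1) (b - 1) else 0)
        = - (if 1 ≤ b ∧ 1 ≤ a then cc (b - 1) (a - 1) else 0) := by
      by_cases hh : 1 ≤ a ∧ 1 ≤ b
      · rw [if_pos hh, if_pos ⟨hh.2, hh.1⟩]
        exact ih (a - 1 + (b - 1)) (by omega) (a - 1) (b - 1) rfl
      · rw [if_neg hh, if_neg (fun h => hh ⟨h.2, h.1⟩)]; simp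
    have i4 : (if 2 ≤ a ∧ 1 ≤ b then cc (a - 2) (b - 1) else 0)
        = - (if 1 ≤ b ∧ 2 ≤ a then cc (b - 1) (a - 2) else 0) := by
      by_cases hh : 2 ≤ a ∧ 1 ≤ b
      · rw [if_pos hh, if_pos ⟨hh.2, hh.1⟩]
        exact ih (a - 2 + (b - 1)) (by omega) (a - 2) (b - 1) rfl
      · rw [if_neg hh, if_neg (fun h => hh ⟨h.2, h.1⟩)]; simp
    have i5 : (if 1 ≤ a ∧ 2 ≤ b then cc (a - 1) (b - 2) else 0)
        = - (if 2 ≤ b ∧ 1 ≤ a then cc (b - 2) (a - 1) else 0) := by
      by_cases hh : 1 ≤ a ∧ 2 ≤ b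
      · rw [if_pos hh, if_pos ⟨hh.2, hh.1⟩]
        exact ih (a - 1 + (b - 2)) (by omega) (a - 1) (b - 2) rfl
      · rw [if_neg hh, if_neg (fun h => hh ⟨h.2, h.1⟩)]; simp
    have i6 : (if a = 0 ∧ b = 1 then (1 : ℚ) else 0) = if b = 1 ∧ a = 0 then 1 else 0 := by
      simp only [and_comm]
    have i7 : (if a = 1 ∧ b = 0 then (1 : ℚ) else 0) = if b = 0 ∧ a = 1 then 1 else 0 := by
      simp only [and_comm]
    rw [i1, i2, i3, i4, i5, i6, i7] at h1
    linarith

/-- The bilinear form on polynomials with `⟨z ^ k, z ^ l⟩ = c k l`. -/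
noncomputable def B : ℚ[X] →ₗ[ℚ] ℚ[X] →ₗ[ℚ] ℚ :=
  (basisMonomials ℚ).constr ℚ (fun k => (basisMonomials ℚ).constr ℚ (fun l => cc k l))

theorem B_mono (k l : ℕ) : B (X ^ k) (X ^ l) = cc k l := by
  have h : ∀ k : ℕ, (X ^ k : ℚ[X]) = basisMonomials ℚ k := by
    intro k; rw [coe_basisMonomials, X_pow_eq_monomial]
  rw [h, h, B, Module.Basis.constr_basis, Module.Basis.constr_basis]

theorem lin_ext {M : Type} [AddCommGroup M] [Module ℚ M] (f g : ℚ[X] →ₗ[ℚ] M)
    (h : ∀ k, f (X ^ k) = g (X ^ k)) (p : ℚ[X]) : f p = g p := by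
  have : f = g := by
    apply (basisMonomials ℚ).ext
    intro k
    rw [coe_basisMonomials]
    have := h k
    rwa [X_pow_eq_monomial] at this
  rw [this]

theorem B_one (g : ℚ[X]) : B 1 g = g.eval 1 - g.eval 0 := by
  have h := lin_ext (B 1) (Polynomial.leval 1 - Polynomial.leval 0) (fun k => by
    rw [← pow_zero X, B_mono]
    simp only [LinearMap.sub_apply, Polynomial.leval_apply, eval_pow, eval_X, one_pow]
    cases k with
    | zero => rw [cc_00]; simp
    | succ k => rw [cc_row0]; simp) g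
  rw [h]; rfl

theorem B_X (g : ℚ[X]) : B X g = (derivative g).eval 1 - (derivative g).eval 0 - g.eval 0 := by
  have h := lin_ext (B X) ((Polynomial.leval 1).comp derivative - (Polynomial.leval 0).comp derivative
      - Polynomial.leval 0) (fun k => by
    rw [← pow_one X, ← pow_mul, one_mul, B_mono]
    simp only [LinearMap.sub_apply, LinearMap.comp_apply, Polynomial.leval_apply, derivative_X_pow]
    rcases k with _ | _ | k
    · rw [cc_10]; simp
    · rw [cc_11]; simp
    · rw [cc_row1]; simp; ring) g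
  rw [h]; rfl

theorem B_skew (f g : ℚ[X]) : B f g = - B g f := by
  have h1 : ∀ k, ∀ g, B (X ^ k) g = - B g (X ^ k) := by
    intro k g
    exact lin_ext (B (X ^ k)) (-(B.flip (X ^ k))) (fun l => by
      rw [LinearMap.neg_apply, LinearMap.flip_apply, B_mono, B_mono]; exact cc_skew k l) g
  exact lin_ext (B.flip g) (-(B g)) (fun k => by
    rw [LinearMap.neg_apply, LinearMap.flip_apply, h1]) f

theorem B_rel (f g : ℚ[X]) : B (X ^ 2 * f) (X ^ 2 * g) = B (X * f) (X ^ 2 * g)
    + B (X ^ 2 * f) (X * g) + B (X * f) (X * g) - B f (X * g) - B (X * f) g := by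
  let m1 : ℚ[X] →ₗ[ℚ] ℚ[X] := LinearMap.mulLeft ℚ (X : ℚ[X])
  let m2 : ℚ[X] →ₗ[ℚ] ℚ[X] := LinearMap.mulLeft ℚ (X ^ 2 : ℚ[X])
  have h1 : ∀ k, ∀ g, B (X ^ 2 * X ^ k) (X ^ 2 * g) = B (X * X ^ k) (X ^ 2 * g)
    + B (X ^ 2 * X ^ k) (X * g) + B (X * X ^ k) (X * g) - B (X ^ k) (X * g) - B (X * X ^ k) g := by
    intro k g
    exact lin_ext ((B (X ^ 2 * X ^ k)).comp m2) ((B (X * X ^ k)).comp m2
      + (B (X ^ 2 * X ^ k)).comp m1 + (B (X * X ^ k)).comp m1 - (B (X ^ k)).comp m1
      - (B (X * X ^ k))) (fun l => by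
        simp only [LinearMap.comp_apply, LinearMap.add_apply, LinearMap.sub_apply, m1, m2,
          LinearMap.mulLeft_apply, ← pow_add, ← pow_succ', B_mono]
        have := cc_22 k l
        rw [show 2 + k = k + 2 by ring, show 2 + l = l + 2 by ring]
        linarith) g
  exact lin_ext ((B.flip (X ^ 2 * g)).comp m2) ((B.flip (X ^ 2 * g)).comp m1
      + (B.flip (X * g)).comp m2 + (B.flip (X * g)).comp m1 - (B.flip (X * g))
      - (B.flip g).comp m1) (fun k => h1 k g) f

/-- The form changes sign under `z ↦ 1 - z`. -/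
theorem B_anti (a b : ℕ) : B ((1 - X) ^ a) ((1 - X) ^ b) = - cc a b := by
  induction h : a + b using Nat.strong_induction_on generalizing a b with
  | _ s ih =>
    have row0 : ∀ b, B ((1 - X) ^ 0) ((1 - X) ^ b) = - cc 0 b := by
      intro b
      rw [pow_zero, B_one]
      rcases b with _ | b
      · rw [cc_00]; simp
      · rw [cc_row0]; simp
    have row1 : ∀ b, B ((1 - X) ^ 1) ((1 - X) ^ b) = - cc 1 b := by
      intro b
      rw [pow_one, map_sub, LinearMap.sub_apply, B_one, B_X]
      rcases b with _ | _ | b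
      · rw [cc_10]; simp
      · rw [cc_11]; simp
      · rw [cc_row1]; simp [derivative_pow]; ring
    rcases a with _ | _ | a
    · exact row0 b
    · exact row1 b
    · rcases b with _ | _ | b
      · rw [B_skew]
        have := row0 (a + 1 + 1)
        rw [this, cc_skew 0 (a + 1 + 1), neg_neg]
      · rw [B_skew]
        have := row1 (a + 1 + 1)
        rw [zero_add, this, cc_skew 1 (a + 1 + 1), neg_neg]
      · -- the recurrence
        have i1 := ih (a + 1 + (b + 2)) (by omega) (a + 1) (b + 2) rfl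
        have i2 := ih (a + 2 + (b + 1)) (by omega) (a + 2) (b + 1) rfl
        have i3 := ih (a + 1 + (b + 1)) (by omega) (a + 1) (b + 1) rfl
        have i4 := ih (a + (b + 1)) (by omega) a (b + 1) rfl
        have i5 := ih (a + 1 + b) (by omega) (a + 1) b rfl
        have hc := cc_22 a b
        have hrel := B_rel ((1 - X) ^ a) ((1 - X) ^ b)
        set F : ℚ[X] := (1 - X) ^ a with hF
        set G' : ℚ[X] := (1 - X) ^ b with hG
        have p1 : (1 - X : ℚ[X]) ^ (a + 1) = F - X * F := by rw [hF, pow_succ]; ring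
        have p2 : (1 - X : ℚ[X]) ^ (a + 2) = F - (2 : ℚ) • (X * F) + X ^ 2 * F := by
          rw [hF, pow_succ, pow_succ, two_smul]; ring
        have q1 : (1 - X : ℚ[X]) ^ (b + 1) = G' - X * G' := by rw [hG, pow_succ]; ring
        have q2 : (1 - X : ℚ[X]) ^ (b + 2) = G' - (2 : ℚ) • (X * G') + X ^ 2 * G' := by
          rw [hG, pow_succ, pow_succ, two_smul]; ring
        rw [p1, q2] at i1
        rw [p2, q1] at i2
        rw [p1, q1] at i3
        rw [q1] at i4
        rw [p1] at i5
        rw [p2, q2, hc]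
        simp only [map_add, map_sub, map_smul, LinearMap.add_apply, LinearMap.sub_apply,
          LinearMap.smul_apply, smul_eq_mul] at i1 i2 i3 i4 i5 ⊢
        linarith

theorem one_sub_pow (a : ℕ) : (1 - X : ℚ[X]) ^ a
    = ∑ k ∈ range (a + 1), ((-1) ^ k * (a.choose k : ℚ)) • X ^ k := by
  rw [sub_eq_add_neg, add_comm, add_pow]
  apply Finset.sum_congr rfl
  intro k _
  rw [one_pow, mul_one, neg_pow, smul_eq_C_mul, C_mul, C_pow, C_neg, C_1]
  simp
  ring

theorem cc_antiInv : AntiInv cc := by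
  intro a b
  rw [← B_anti a b, one_sub_pow a, one_sub_pow b]
  simp only [map_sum, LinearMap.sum_apply, map_smul, LinearMap.smul_apply, smul_eq_mul, B_mono]
  unfold bt
  simp only [Finset.mul_sum]
  rw [Finset.sum_comm]
  apply Finset.sum_congr rfl
  intro k _
  apply Finset.sum_congr rfl
  intro l _
  ring

theorem bt_neg_one (a : ℕ) : bt (fun k => (-1) ^ k) a = 2 ^ a := by
  unfold bt
  have h := add_pow (1 : ℚ) 1 a
  norm_num at h
  rw [h]
  apply Finset.sum_congr rfl
  intro k _
  have : ((-1 : ℚ)) ^ k * (-1) ^ k = 1 := by rw [← mul_pow]; simp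
  calc (-1 : ℚ) ^ k * (a.choose k : ℚ) * (-1) ^ k = ((-1 : ℚ) ^ k * (-1) ^ k) * (a.choose k : ℚ) := by ring
    _ = (a.choose k : ℚ) := by rw [this, one_mul]

/-- The two Pfaffians coincide: with the entries `c a b` for `0 ≤ a, b ≤ 2 n`, the last column
`(-1) ^ a` and the last column `((-1) ^ a + 2 ^ a) / 2` give the same Pfaffian. -/
theorem result (n : ℕ) : pf (border n cc (fun a => (-1) ^ a))
    = pf (border n cc (fun a => ((-1) ^ a + 2 ^ a) / 2)) := by
  obtain ⟨L, hL⟩ := pf_border_linear n cc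
  have h1 := pf_bt n cc cc_antiInv (fun a => (-1) ^ a)
  have h2 : bt (fun k => (-1) ^ k) = fun a => 2 ^ a := funext bt_neg_one
  rw [h2, hL, hL] at h1
  rw [hL, hL]
  have h3 : (fun a : ℕ => ((-1 : ℚ) ^ a + 2 ^ a) / 2)
      = (1 / 2 : ℚ) • ((fun a : ℕ => (-1 : ℚ) ^ a) + fun a : ℕ => (2 : ℚ) ^ a) := by
    funext a
    simp only [Pi.smul_apply, Pi.add_apply, smul_eq_mul]
    ring
  rw [h3, map_smul, map_add, h1, smul_eq_mul]
  ring

end Form

end Pool.Agent.Results.MP_d12cfa_co.PfaffianIdentity
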